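import Pool.Agent.Helper62_GB.All

/-!
Most convex bodies of the plane are determined by their Dirichlet spectrum.
-/

namespace Pool.Agent.H76Kept.MostConvexBodies

open Pool.Agent.H16Iso

/-- The space of the convex bodies of the plane with nonempty interior. The distance of Mathlib on
`ConvexBody ℂ` is the Hausdorff distance. -/
abbrev Body : Type := {K : ConvexBody ℂ // (interior (K : Set ℂ)).Nonempty}

/-- the Dirichlet eigenvalue number `k` (from `0`, with multiplicity) of the interior of `K` -/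
noncomputable def eig (K : Body) (k : ℕ) : ℝ := dirEig (interior (K.1 : Set ℂ)) k

/-- the maximum of the linear function `⟨u, ·⟩` on `K` is attained at the point `x` of `K`
(for a unit vector `u`: it is an outer normal vector of `K` at `x`) -/
def Normal (K : Body) (x u : ℂ) : Prop :=
  x ∈ K.1 ∧ ∀ y ∈ K.1, u.re * y.re + u.im * y.im ≤ u.re * x.re + u.im * x.im

/-- The space of the convex bodies of the plane is a Baire space and has a dense `G_δ` subset `D`
such that every `K ∈ D` is strictly convex, has only one outer unit normal at each boundary point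
(its boundary is of class `C¹`), and is determined by its Dirichlet spectrum, up to isometries,
among all convex bodies; moreover finitely many approximate eigenvalues determine `K`
approximately. -/
theorem result : BaireSpace Body ∧ ∃ D : Set Body, IsGδ D ∧ Dense D ∧ ∀ K ∈ D,
    StrictConvex ℝ (K.1 : Set ℂ) ∧
    (∀ x u v : ℂ, ‖u‖ = 1 → ‖v‖ = 1 → Normal K x u → Normal K x v → u = v) ∧
    (∀ K' : Body, (∀ k, eig K' k = eig K k) →
      ∃ g : ℂ ≃ᵢ ℂ, g '' (K.1 : Set ℂ) = (K'.1 : Set ℂ)) ∧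
    ∀ ε : ℝ, 0 < ε → ∃ (N : ℕ) (δ : ℝ), 0 < δ ∧ ∀ K' : Body,
      (∀ k ≤ N, |eig K' k - eig K k| < δ) →
        ∃ g : ℂ ≃ᵢ ℂ, Metric.hausdorffDist (g '' (K.1 : Set ℂ)) (K'.1 : Set ℂ) < ε := by
  have hb : BaireSpace Body := Pool.Agent.GB.H81.bai
  refine ⟨hb, {K | Pool.Agent.GB.Det K.1} ∩ ({K | Pool.Agent.GB.Smooth1 K.1} ∩
    {K | StrictConvex ℝ (K.1 : Set ℂ)}), ?_, ?_, ?_⟩
  · exact Pool.Agent.GB.gde_all.inter
      (Pool.Agent.GB.H51.kc1.1.inter Pool.Agent.GB.H51.ksc.1)
  · exact Pool.Agent.GB.dns_all.inter_of_Gδ Pool.Agent.GB.gde_all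
      (Pool.Agent.GB.H51.kc1.1.inter Pool.Agent.GB.H51.ksc.1)
      (Pool.Agent.GB.H51.kc1.2.inter_of_Gδ Pool.Agent.GB.H51.kc1.1
        Pool.Agent.GB.H51.ksc.1 Pool.Agent.GB.H51.ksc.2)
  · rintro K ⟨hD, hS, hC⟩
    refine ⟨hC, ?_, ?_, ?_⟩
    · intro x u v hu hv hxu hxv
      exact hS x hxu.1 u v hu hv hxu.2 hxv.2
    · intro K' hk
      exact hD K'.1 K'.2 fun k => (hk k).symm
    · intro ε hε
      obtain ⟨N, δ, hδ, h⟩ := Pool.Agent.GB.stab_all K hD ε hε
      exact ⟨N, δ, hδ, fun K' hK' => h K' hK'⟩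

end Pool.Agent.H76Kept.MostConvexBodies
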